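import Pool.Agent.H67.LinL3

set_option autoImplicit false

namespace Pool.Agent.Results.MP_9293a4_al.Full

open H67.LinL

/-- There is a finite lattice satisfying every higher Arguesian identity `D n` (`n ≥ 3`) that has
no embedding into a lattice of equivalence relations by pairwise commuting relations. -/
theorem result : ∃ (K : Type) (_ : Lattice K), Finite K ∧
    (∀ n : ℕ, 3 ≤ n → ∀ (a b : ℕ → K) (h : (Finset.Icc 1 (n - 1)).Nonempty),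
      a n ⊓ ((Finset.Icc 1 (n - 1)).inf' h (fun i => a i ⊔ b i) ⊔ b n) ≤
        a 1 ⊔ ((Finset.Icc 1 (n - 1)).sup' h
          (fun i => (a i ⊔ a (i + 1)) ⊓ (b i ⊔ b (i + 1))) ⊓ (b 1 ⊔ b n))) ∧
    ¬ ∃ (X : Type) (f : LatticeHom K (Setoid X)), Function.Injective f ∧ ∀ (a b : K) (x y : X),
      (∃ z, (f a).r x z ∧ (f b).r z y) ↔ (∃ z, (f b).r x z ∧ (f a).r z y) := by
  refine ⟨Lᵒᵈ, inferInstance, inferInstanceAs (Finite L), fun n hn a b h => ?_, not_lin⟩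
  have hP : ∀ i ∈ Finset.Icc 1 (n - 1), (Finset.Icc 1 (n - 1)).inf' h (fun i => a i ⊔ b i) ≤
      a i ⊔ b i := fun i hi => Finset.inf'_le (fun i => a i ⊔ b i) hi
  have hQ : ∀ i ∈ Finset.Icc 1 (n - 1), (a i ⊔ a (i + 1)) ⊓ (b i ⊔ b (i + 1)) ≤
      (Finset.Icc 1 (n - 1)).sup' h (fun i => (a i ⊔ a (i + 1)) ⊓ (b i ⊔ b (i + 1))) := fun i hi =>
    Finset.le_sup' (fun i => (a i ⊔ a (i + 1)) ⊓ (b i ⊔ b (i + 1))) hi
  generalize (Finset.Icc 1 (n - 1)).inf' h (fun i => a i ⊔ b i) = P at hP ⊢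
  generalize (Finset.Icc 1 (n - 1)).sup' h
    (fun i => (a i ⊔ a (i + 1)) ⊓ (b i ⊔ b (i + 1))) = Q at hQ ⊢
  have sp : ∀ (A B : L) (g : G), g ∈ (A ⊔ B).1 → ∃ x ∈ A.1, ∃ y ∈ B.1, x * y = g := by
    intro A B g h
    haveI : B.1.Normal := B.2
    have h' : g ∈ A.1 ⊔ B.1 := h
    rwa [← SetLike.mem_coe, Subgroup.mul_normal] at h'
  rintro x ⟨h1, h2⟩
  obtain ⟨y, hy, z, hz, rfl⟩ := sp _ _ _ h2
  have key : ∀ i, i + 1 ≤ n → ∃ α ∈ (a (i + 1)).1, α⁻¹ * (y * z) ∈ P.1 ∧ α⁻¹ * y ∈ (b (i + 1)).1 := by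
    intro i
    induction i with
    | zero => exact fun _ => ⟨_, h1, by simp, by simpa using hz.1⟩
    | succ i ih =>
      intro hi
      obtain ⟨α, k1, k2, k3⟩ := ih (by omega)
      have m : i + 1 ∈ Finset.Icc 1 (n - 1) := Finset.mem_Icc.2 ⟨by omega, by omega⟩
      obtain ⟨u, hu, v, hv, e⟩ := sp _ _ _ (hQ _ m hy)
      have e' : u⁻¹ * y = v := by rw [← e]; group
      refine ⟨u, hu.2, ?_, e' ▸ hv.2⟩
      have : u⁻¹ * α ∈ P.1 := hP _ m ⟨mul_mem ((a (i + 1)).1.inv_mem hu.1) k1, by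
        rw [show u⁻¹ * α = v * (α⁻¹ * y)⁻¹ by rw [← e']; group]
        exact (b (i + 1)).1.mul_mem hv.1 (inv_mem k3)⟩
      rw [show u⁻¹ * (y * z) = u⁻¹ * α * (α⁻¹ * (y * z)) by group]
      exact mul_mem this k2
  obtain ⟨α, k1, k2, k3⟩ := key (n - 1) (by omega)
  rw [show n - 1 + 1 = n by omega] at k1 k3
  rw [← mul_inv_cancel_left α (y * z)]
  exact Subgroup.mul_mem_sup k1 ⟨k2, by rw [← mul_assoc]; exact mul_mem k3 hz.2⟩

end Pool.Agent.Results.MP_9293a4_al.Full
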